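import Pool.Agent.H9.SE.TarL
import Pool.Agent.H47.CA.UK

/-! # LA5: properties of the chosen Cohen reals -/

set_option linter.unusedVariables false

open Ordinal Order Set
open scoped ZFSet

namespace SE

open SF CAA CAU.UK47

namespace H21L5

theorem rank_LA {A : V} (α : Ordinal.{0}) : ∀ x ∈ LA A α, x.rank < α := by
  induction α using WellFoundedLT.induction with
  | ind α ih =>
    intro x hx
    rcases mem_Lh.1 hx with h | ⟨β, hβ, h⟩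
    · exact absurd h (ZFSet.notMem_empty x)
    · refine lt_of_le_of_lt ?_ hβ
      rw [ZFSet.rank_le_iff]
      intro y hy
      exact ih β hβ y (Def_sub h hy)

theorem ord_LA (α β : Ordinal.{0}) : α.toZFSet ∈ LA ∅ β ↔ α < β := by
  constructor
  · intro h
    have h1 := rank_LA β _ h
    rwa [rank_toZFSet] at h1
  · exact fun h => (ord_sub_Lh dn_empty_tr α).2 β h

theorem ctbl_mono {M M' : V → Prop} (h : ∀ x, M x → M' x) {x : V} (hx : Ctbl M x) : Ctbl M' x := by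
  rcases hx with h0 | ⟨f, hf, ho⟩
  · exact Or.inl h0
  · exact Or.inr ⟨f, h f hf, ho⟩

theorem LA_mono {α β : Ordinal.{0}} (h : α ≤ β) : LA ∅ α ⊆ LA ∅ β := Lh_mono h

theorem LA_mem {α β : Ordinal.{0}} (h : α < β) : LA ∅ α ∈ LA ∅ β := Lh_mem h

/-- a Cohen real over a model is not in the model -/
theorem coh_notMem (hAA : T_AA) (hAF : T_AF) {N l : V} (k : ZFm (· ∈ N)) (h : Coh N l) :
    l ∉ N := by
  intro hl
  obtain ⟨a1, a2, a3, a4, a5, a6, a7, -⟩ := hAA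
  obtain ⟨b1, b2, b3, b4, b5, b6, -⟩ := hAF
  have hD : (sq.sep fun s => ¬ s ⊆ l) ∈ N := by
    have := (Tm.sep (f := fun _ _ => sq) (R := fun _ v => ¬ v 0 ⊆ v 1)
      (Dfb.subset (Tm.var 0) (Tm.var 1)).not b3).1 (· ∈ N) k _ (in1 k hl)
    exact this
  obtain ⟨t, ht, htl⟩ := h.2 _ hD (fun s hs => (ZFSet.mem_sep.1 hs).1) (by
    intro s hs
    obtain ⟨n, hn⟩ := (b1 s).1 hs
    obtain ⟨a, ha, hne⟩ := a7 {app l (nS n)} (Set.finite_singleton _)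
    obtain ⟨c1, c2, -⟩ := b6 n s a hn ha
    refine ⟨insert (ZFSet.pair (nS n) a) s, ZFSet.mem_sep.2 ⟨(b1 _).2 ⟨_, c1⟩, ?_⟩, ?_⟩
    · intro hsub
      have h1 : ZFSet.pair (nS n) a ∈ l := hsub (ZFSet.mem_insert _ _)
      have h2 : app l (nS n) = a := app_eq (svl_of_isFunc h.1) h1
      exact hne (by rw [h2]; rfl)
    · exact fun x hx => ZFSet.mem_insert_of_mem _ hx)
  exact (ZFSet.mem_sep.1 ht).2 htl

end H21L5

open H21L5 in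
theorem pf_LA5 (hAA : T_AA) (hAF : T_AF) (hAC : T_AC) (hLG2 : T_LG2) (hLA3 : T_LA3)
    (hLA4 : T_LA4) : T_LA5 := by
  intro ix hix τ μ κ g
  have kτ : ZFm (· ∈ LA ∅ τ) := g.zfc.toZFCm.toZFm
  obtain ⟨-, hcμ, -⟩ := hLG2 τ μ κ g
  have hμτ : μ < τ := g.μκ.trans g.κτ
  obtain ⟨φ, hφ⟩ := Dfb.ctbl (f := fun _ v => v 0) (Tm.var 0)
  -- countability goes down to elementary submodels
  have hdn : ∀ β < μ, ElSub (LA ∅ β) (LA ∅ μ) → ZFm (· ∈ LA ∅ β) → ∀ x ∈ LA ∅ β,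
      Ctbl (· ∈ LA ∅ β) x := by
    intro β hβ hel kβ x hx
    have h1 : In (· ∈ LA ∅ β) (fun _ => x) := fun _ => hx
    have h2 : In (· ∈ LA ∅ μ) (fun _ => x) := fun _ => LA_mono hβ.le hx
    exact (hφ _ kβ _ h1).1 ((hel.2 φ _ h1).2 ((hφ _ g.zμ _ h2).2 (hcμ x (LA_mono hβ.le hx))))
  -- the least triple
  have key : ∀ θ : Ordinal.{0}, ZFm (· ∈ LA ∅ θ) → ∀ η < θ, Ctbl (· ∈ LA ∅ θ) (LA ∅ η) →
      ∃ l, Lz ix η l ∧ l ∈ LA ∅ θ ∧ Coh (LA ∅ η) l := by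
    intro θ kθ η hη hc
    obtain ⟨β, ρ, ξ, -, -, -, h1, h2⟩ := hLA4 ix hix θ kθ (fun α => ord_LA α θ) η (LA_mem hη) hc
    exact ⟨_, ⟨β, ρ, ξ, h1, rfl⟩, h2, h1.c⟩
  have uni : ∀ η l l', Lz ix η l → Lz ix η l' → l' = l := by
    rintro η l l' ⟨β, ρ, ξ, h1, rfl⟩ ⟨β', ρ', ξ', h2, rfl⟩
    obtain ⟨-, rfl, rfl⟩ := (hLA3 ix (LA ∅ η)).2 β ρ ξ β' ρ' ξ' h1 h2
    rfl
  have hadμ : ∀ η, Ad (· ∈ LA ∅ τ) η → η < μ := by
    intro η ha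
    obtain ⟨β, hβ, hc⟩ := ha.c
    by_contra hcon
    push Not at hcon
    have hβτ : β < τ := (ord_LA β τ).1 hβ
    have hcτ : Ctbl (· ∈ LA ∅ τ) (LA ∅ η) := ctbl_mono (fun x hx => LA_mono hβτ.le hx) hc
    refine g.nμ ((hAC _ kτ).2.1 _ _ ((ord_LA μ τ).2 hμτ) hcτ ?_)
    intro x hx
    exact LA_mono hcon ((ord_sub_Lh dn_empty_tr μ).1 hx)
  refine ⟨?_, ?_, ?_⟩
  · intro α hα
    obtain ⟨β, h1, h2, h3, h4⟩ := g.el α hα
    refine ⟨β, h1, h2, h4, hdn β h2 h3 h4, ?_⟩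
    rcases hcμ (LA ∅ β) (LA_mem h2) with h0 | ⟨f, hf, ho⟩
    · exact ⟨β, (ord_LA β τ).2 (h2.trans hμτ), Or.inl h0⟩
    · obtain ⟨β', hβ', hf'⟩ := (mem_Lh_limit g.limμ).1 (show f ∈ Lh ∅ ∅ μ from hf)
      exact ⟨β', (ord_LA β' τ).2 (hβ'.trans hμτ), Or.inr ⟨f, hf', ho⟩⟩
  · intro η ha
    have hη := hadμ η ha
    obtain ⟨l, h1, h2, h3⟩ := key μ g.zμ η hη (hcμ _ (LA_mem hη))
    exact ⟨hη, fun α => ord_LA α η, l, h1, h2, h3, coh_notMem hAA hAF ha.z h3,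
      fun l' h => uni η l l' h1 h⟩
  · intro η η' ha ha' hlt l hl
    obtain ⟨l', h1, h2, h3⟩ := key η' ha'.z η hlt (ha'.a _ (LA_mem hlt))
    rw [uni η l' l h1 hl]
    exact h2

end SE
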