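import Pool.Agent.H9.SE.TarL
import Pool.Agent.H47.CA.UK

/-! # LG1: the ground model -/

set_option linter.unusedVariables false

open Ordinal Order Set
open scoped ZFSet

namespace SE

open SF CAA CAU.UK47

namespace H21L

theorem rank_LA {A : V} (α : Ordinal.{0}) : ∀ x ∈ LA A α, x.rank < α := by
  induction α using WellFoundedLT.induction with
  | ind α ih =>
    intro x hx
    rcases mem_Lh.1 hx with h | ⟨β, hβ, h⟩
    · exact absurd h (ZFSet.notMem_empty x)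
    · refine lt_of_le_of_lt ?_ hβ
      rw [ZFSet.rank_le_iff]
      intro y hy
      exact ih β hβ y (Def_sub h hy)

theorem ord_LA (α β : Ordinal.{0}) : α.toZFSet ∈ LA ∅ β ↔ α < β := by
  constructor
  · intro h
    have h1 := rank_LA β _ h
    rwa [rank_toZFSet] at h1
  · exact fun h => (ord_sub_Lh dn_empty_tr α).2 β h

theorem Onto.rg {f x y : V} (h : Onto f x y) : SF.rg f = y := by
  ext b
  rw [mem_rg]
  constructor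
  · rintro ⟨a, hab⟩
    exact (ZFSet.pair_mem_prod.1 (h.1.1 hab)).2
  · intro hb
    obtain ⟨a, -, hab⟩ := h.2 b hb
    exact ⟨a, hab⟩

/-- a level of regular height -/
structure Lvl (M : V → Prop) (C : V) (μ : Ordinal.{0}) : Prop where
  mem : M μ.toZFSet
  ns : ¬ Sm M C μ.toZFSet
  sm : ∀ δ < μ, Sm M C δ.toZFSet
  lim : IsSuccLimit μ
  ωμ : ω < μ
  gt : ∀ α : Ordinal.{0}, α.toZFSet ∈ C → α < μ
  bd : ∀ x, M x → Sm M C x → x ⊆ μ.toZFSet → ∃ γ < μ, x ⊆ γ.toZFSet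
  sx : ∀ x ∈ LA ∅ μ, Sm M C x
  bf : ∀ y ∈ LA ∅ μ, ∀ f, M f → ZFSet.IsFunc y μ.toZFSet f →
    ∃ γ < μ, ∀ u ∈ y, app f u ∈ γ.toZFSet
  LM : M (LA ∅ μ)
  el : ∀ α < μ, ∃ β, α < β ∧ β < μ ∧ ElSub (LA ∅ β) (LA ∅ μ) ∧ ZFm (· ∈ LA ∅ β)
  z : ZFm (· ∈ LA ∅ μ)

theorem lvl (hDM : T_DM) (hDH : T_DH) (hDF : T_DF) (hGB : T_GB) {M : V → Prop}
    (hZ : ZFC M) {C : V} (hC : M C) (gC : Gd C) : ∃ μ : Ordinal.{0}, Lvl M C μ := by
  have k : ZFm M := hZ.toZFCm.toZFm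
  obtain ⟨μ, hμM, hμ1, hμ2⟩ := least hZ hC
  obtain ⟨d1, d2, d3⟩ := hDH M hZ.toZFCm C hC gC μ hμM hμ2 hμ1
  have hωμ : ω < μ := d1 ω gC.om
  obtain ⟨f1, f2, f3, f4, f5, f6, f7, -⟩ := hDF M k C hC gC
  have hsx : ∀ x ∈ LA ∅ μ, Sm M C x := by
    intro x hx
    obtain ⟨β, hβ, hx'⟩ := (mem_Lh_limit d3).1 (show x ∈ Lh ∅ ∅ μ from hx)
    have hLβ : M (LA ∅ β) := M_LA k (k.mle hμM hβ.le)
    exact f3 x (LA ∅ β) (k.trans _ hLβ x hx')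
      (hGB M hZ.toZFCm C hC gC β (k.mle hμM hβ.le) (hμ2 β hβ))
      (fun y hy => Lh_isTransitive dn_empty_tr β x hx' hy)
  have hbf : ∀ y, Sm M C y → ∀ f, M f → ZFSet.IsFunc y μ.toZFSet f →
      ∃ γ < μ, ∀ u ∈ y, app f u ∈ γ.toZFSet := by
    intro y hy f hf hfun
    have hs2 : Sm M C (rg f) := f7 _ f hy hf (svl_of_isFunc hfun) (dm_eq hfun)
    have hsub : rg f ⊆ μ.toZFSet := by
      intro y hy
      obtain ⟨x, hx⟩ := mem_rg.1 hy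
      exact (ZFSet.pair_mem_prod.1 (hfun.1 hx)).2
    obtain ⟨g, hg, hg2⟩ := d2 (rg f) (M_rg k hf) hs2 hsub
    exact ⟨g, hg, fun x hx => hg2 (mem_rg.2 ⟨x, pair_app_mem hfun hx⟩)⟩
  have happ : ∀ α < μ, app (resS μ.toZFSet fun x => LAS ∅ x) α.toZFSet = LA ∅ α := by
    intro α hα
    rw [app_resS (toZFSet_mem_toZFSet_iff.2 hα), LAS_ord]
  obtain ⟨m1, m2, m3, -⟩ := hDM M hZ.toZFCm μ (resS μ.toZFSet fun x => LAS ∅ x) (LA ∅ μ)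
    (M_H k hμM) hμM hωμ d3
    (fun α hα => by rw [happ α hα]; exact Lh_isTransitive dn_empty_tr α)
    (fun α hα => by
      rw [happ α hα, happ _ (d3.succ_lt hα)]
      exact Def_Lh_sub (lt_succ α))
    (fun α β hαβ hβ => by
      rw [happ β hβ, happ α (hαβ.trans_lt hβ)]
      exact Lh_mono hαβ)
    (fun g hg hl x hx => by
      rw [happ g hg] at hx
      obtain ⟨β, hβ, hx'⟩ := (mem_Lh_limit hl).1 hx
      refine ⟨β, hβ, ?_⟩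
      rw [happ β (hβ.trans hg)]
      exact hx')
    (fun α hα f hf hfun => by
      rw [happ α hα] at hfun ⊢
      exact hbf _ (hGB M hZ.toZFCm C hC gC α (k.mle hμM hα.le) (hμ2 α hα)) f hf hfun)
    (fun x => by
      rw [show LA ∅ μ = Lh ∅ ∅ μ from rfl, mem_Lh_limit d3]
      refine exists_congr fun β => and_congr_right fun hβ => ?_
      rw [happ β hβ]
      exact Iff.rfl)
  refine ⟨μ, hμM, hμ1, hμ2, d3, hωμ, d1, d2, hsx, fun y hy => hbf y (hsx y hy), m1, ?_, m3⟩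
  intro α hα
  obtain ⟨β, h1, h2, h3, h4⟩ := m2 α hα
  rw [happ β h2] at h3 h4
  exact ⟨β, h1, h2, h3, h4⟩

end H21L

open H21L in
theorem pf_LG1 (hLC : T_LC1) (hDN : T_DN) (hDM : T_DM) (hDH : T_DH) (hDF : T_DF) (hGB : T_GB)
    (hGC : T_GC) (hAC : T_AC) : T_LG1 := by
  intro τ hct hZ
  have k : ZFm (· ∈ LA ∅ τ) := hZ.toZFCm.toZFm
  obtain ⟨C, hC, gC, cC⟩ := hLC _ hZ.toZFCm
  obtain ⟨μ, hμ⟩ := lvl hDM hDH hDF hGB hZ hC gC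
  have gμ : Gd (LA ∅ μ) := hGC μ hμ.lim hμ.ωμ
  obtain ⟨κ, hκ⟩ := lvl hDM hDH hDF hGB hZ hμ.LM gμ
  obtain ⟨a1, a2, a3, a4, a5, a6⟩ := hAC _ k
  obtain ⟨f1, f2, f3, f4, f5, f6, f7, -⟩ := hDF _ k C hC gC
  obtain ⟨g1, g2, g3, g4, g5, g6, g7, -⟩ := hDF _ k (LA ∅ μ) hμ.LM gμ
  -- countable sets are images of `C`
  have hcs : ∀ x, Ctbl (· ∈ LA ∅ τ) x → Sm (· ∈ LA ∅ τ) C x := by
    rintro x (rfl | ⟨f, hf, ho⟩)
    · exact Or.inl rfl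
    · have := f7 om f (f1 om gC.om) hf (svl_of_isFunc ho.1) (dm_eq ho.1)
      rwa [H21L.Onto.rg ho] at this
  -- and conversely
  have hsc : ∀ x, Sm (· ∈ LA ∅ τ) C x → Ctbl (· ∈ LA ∅ τ) x := by
    rintro x (rfl | ⟨f, hf, ho⟩)
    · exact Or.inl rfl
    · have := a6 C f hf (svl_of_isFunc ho.1) cC (by rw [dm_eq ho.1])
      rwa [H21L.Onto.rg ho] at this
  have hμκ : μ < κ := by
    by_contra hcon
    push Not at hcon
    refine hκ.ns (g2 _ hκ.mem ?_)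
    intro x hx
    exact (ord_sub_Lh dn_empty_tr μ).1 (toZFSet_subset_toZFSet_iff.2 hcon hx)
  have hκτ : κ < τ := (ord_LA κ τ).1 hκ.mem
  have hlev : ∀ ρ < τ, ∃ ρ', ρ < ρ' ∧ ρ' < τ ∧ ZFm (· ∈ LA ∅ ρ') := by
    intro ρ hρ
    obtain ⟨μ, h1, h2, h3⟩ := level hDM hDH hDF hGB hGC hZ ((ord_LA ρ τ).2 hρ)
    exact ⟨μ, h1, (ord_LA μ τ).1 h2, h3⟩
  refine ⟨μ, κ, hZ, hct, fun α => ord_LA α τ, hμ.ωμ, hμκ, hκτ, hμ.lim, hκ.lim, hμ.z, hκ.z,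
    fun α => ord_LA α μ, fun α => ord_LA α κ, fun x hx => hsc x (hμ.sx x hx), ?_, ?_, ?_, hμ.el,
    ?_, ?_⟩
  · exact fun h => hμ.ns (hcs _ h)
  · intro x hx hs
    exact hμ.bd x (a1 x hx) (hcs x hx) hs
  · exact fun y hy f hf hfun => hκ.bf y hy f hf hfun
  · exact hDN μ τ hZ.toZFCm hμ.ωμ (hμκ.trans hκτ) hlev hμ.bf hμ.z
  · exact hDN κ τ hZ.toZFCm hκ.ωμ hκτ hlev hκ.bf hκ.z

end SE
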